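import Pool.Agent.V5helper56.DU.Stm

set_option linter.style.haveILetI false
set_option linter.unusedSectionVars false
set_option linter.unusedVariables false

open NumberField Ideal Module IntermediateField Pool.Agent.W569.FM Pool.Agent.W571.FM Pool.Agent.R417.FK
open Pool.Agent.Helper832_EG
open scoped Pointwise nonZeroDivisors

namespace Pool.Agent.V5helper4.DU

open Pool.Agent.V5helper56.DU

theorem t_SUB : S_SUB := by
  intro K _ _ p hp Q hQ hpQ
  letI : Field (𝓞 K ⧸ Q) := Ideal.Quotient.field Q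
  let π : 𝓞 K →+* 𝓞 K ⧸ Q := Ideal.Quotient.mk Q
  have hπ : ∀ a b : 𝓞 K, a - b ∈ Q ↔ π a = π b := fun a b => (Ideal.Quotient.eq).symm
  have hp0 : π (p : 𝓞 K) ≠ 0 := by
    intro h
    exact hpQ (Ideal.Quotient.eq_zero_iff_mem.mp h)
  have hpK : (p : K) ≠ 0 := by exact_mod_cast hp.ne_zero
  refine ⟨{ carrier := {v | IsPow p Q v}
            mul_mem' := ?_
            one_mem' := ?_
            inv_mem' := ?_ }, fun v => Iff.rfl⟩
  · rintro v v' ⟨n, x, z, hx, hz⟩ ⟨n', x', z', hx', hz'⟩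
    refine ⟨n + n', x * x', z * z', ?_, ?_⟩
    · have e1 : ((x * x' : 𝓞 K) : K) = (x : K) * (x' : K) := rfl
      have e2 : (((v * v' : PU p K) : Kˣ) : K) = ((v : Kˣ) : K) * ((v' : Kˣ) : K) := rfl
      rw [e1, e2, hx, hx']
      ring
    · rw [hπ] at hz hz' ⊢
      rw [map_mul, hz, hz', mul_pow, map_mul]
  · refine ⟨0, 1, 1, ?_, ?_⟩
    · simp
    · rw [hπ]
      simp
  · rintro v ⟨n, x, z, hx, hz⟩
    obtain ⟨m, hm1, hm2⟩ := v.2
    have hint : IsIntegral ℤ ((p : K) ^ (p * m) * (((v : Kˣ)⁻¹ : Kˣ) : K)) := by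
      have h1 : (p : K) ^ (p * m) * (((v : Kˣ)⁻¹ : Kˣ) : K) =
          (p : K) ^ ((p - 1) * m) * ((p : K) ^ m * (((v : Kˣ)⁻¹ : Kˣ) : K)) := by
        rw [← mul_assoc, ← pow_add]
        congr 2
        have : p = (p - 1) + 1 := (Nat.sub_add_cancel hp.pos).symm
        conv_lhs => rw [this]
        ring
      rw [h1]
      refine IsIntegral.mul ?_ hm2
      exact IsIntegral.pow (by exact_mod_cast (isIntegral_algebraMap (R := ℤ) (A := K) (x := (p : ℤ)))) _
    let x' : 𝓞 K := ⟨_, hint⟩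
    have hx' : (x' : K) = (p : K) ^ (p * m) * (((v : Kˣ)⁻¹ : Kˣ) : K) := rfl
    have hxx : x * x' = ((p : 𝓞 K) ^ (n + m)) ^ p := by
      apply RingOfIntegers.coe_injective
      have hvne : ((v : Kˣ) : K) ≠ 0 := Units.ne_zero _
      rw [map_mul, map_pow, map_pow, map_natCast]
      show (x : K) * (x' : K) = _
      rw [hx, hx', Units.val_inv_eq_inv_val]
      field_simp
      ring
    have h1 := congrArg π hxx
    rw [hπ] at hz
    rw [map_mul, hz, map_pow, map_pow, map_pow] at h1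
    have hz0 : π z ≠ 0 := by
      intro h0
      rw [h0, zero_pow hp.ne_zero, zero_mul] at h1
      exact pow_ne_zero _ (pow_ne_zero _ hp0) h1.symm
    obtain ⟨z', hz'⟩ := Ideal.Quotient.mk_surjective (π (p : 𝓞 K) ^ (n + m) / π z)
    refine ⟨m, x', z', ?_, ?_⟩
    · rw [hx']
      rfl
    · rw [hπ, map_pow]
      show π x' = (π z') ^ p
      rw [show π z' = π (p : 𝓞 K) ^ (n + m) / π z from hz', div_pow, ← h1]
      field_simp

end Pool.Agent.V5helper4.DU
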