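import Pool.Agent.V5helper56.DU.Stm

set_option linter.style.haveILetI false
set_option linter.unusedSectionVars false
set_option linter.unusedVariables false

open NumberField Ideal Module IntermediateField Pool.Agent.W569.FM Pool.Agent.W571.FM Pool.Agent.R417.FK
open Pool.Agent.Helper832_EG
open scoped Pointwise nonZeroDivisors

namespace Pool.Agent.V5helper4.DU

open Pool.Agent.V5helper56.DU Pool.Agent.V5helper56.LI

theorem t_CNT (h90' : S_H90) (hrng : S_RNG) : S_CNT := by
  intro K L _ _ _ _ _ _ p hp hcard hcl σ hσ ι _ P hR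
  classical
  haveI : Fact p.Prime := ⟨hp⟩
  have hdvd : ∀ I : Ideal (𝓞 L), (∀ i, p ∣ multiplicity (P i) I) →
      ∀ Q : Ideal (𝓞 L), Q.IsMaximal → (p : 𝓞 L) ∉ Q →
        Q.ramificationIdx (𝓞 K) ∣ multiplicity Q I := by
    intro I hI Q hQ hpQ
    by_cases hQP : ∃ i, Q = P i
    · obtain ⟨i, rfl⟩ := hQP
      rw [hR.ram]
      exact hI i
    · push Not at hQP
      rw [hR.other Q hQ hpQ hQP]
      exact one_dvd _
  have hex : ∀ y : (nP p σ).ker, ∃ b : 𝓞 L, b ≠ 0 ∧
      σ (b : L) = (((y : PU p L) : Lˣ) : L) * b := fun y =>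
    h90' K L p hp hcard σ hσ y y.2
  choose b hb hyb using hex
  have hspan : ∀ y, Ideal.span {b y} ≠ ⊥ := fun y => by simpa using hb y
  rw [Subgroup.relIndex, Subgroup.index_eq_card]
  have hinj : Function.Injective (fun (c : (nP p σ).ker ⧸ ((dP p σ).range.subgroupOf (nP p σ).ker)) (i : ι) =>
      ((multiplicity (P i) (Ideal.span {b c.out}) : ℕ) : ZMod p)) := by
    intro c c' hcc
    have h1 : ∀ i, ((multiplicity (P i) (Ideal.span {b c.out}) : ℕ) : ZMod p) =
      ((multiplicity (P i) (Ideal.span {b c'.out}) : ℕ) : ZMod p) := fun i => congrFun hcc i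
    have h2 : ((c.out : PU p L) * (c'.out : PU p L) ^ (p - 1)) ∈ (dP p σ).range := by
      refine hrng K L p hp hcl σ hσ (b c.out * b c'.out ^ (p - 1)) _ ?_
        (mul_ne_zero (hb _) (pow_ne_zero _ (hb _))) ?_ ?_
      · exact (nP p σ).ker.mul_mem c.out.2 ((nP p σ).ker.pow_mem c'.out.2 _)
      · have e1 : ((b c.out * b c'.out ^ (p - 1) : 𝓞 L) : L) = (b c.out : L) * (b c'.out : L) ^ (p - 1) := by
          push_cast
          rfl
        rw [e1, map_mul, map_pow, hyb, hyb]
        push_cast
        ring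
      · apply hdvd
        intro i
        rw [← Ideal.span_singleton_mul_span_singleton, ← Ideal.span_singleton_pow,
          mult_mul (hR.max i) (hspan _) (pow_ne_zero _ (hspan _)), mult_pow (hR.max i) (hspan _)]
        rw [← ZMod.natCast_eq_zero_iff, Nat.cast_add, h1, Nat.cast_mul, Nat.cast_sub hp.one_lt.le, Nat.cast_one]
        simp
    have h3 : ((c'.out : PU p L) ^ p) ∈ (dP p σ).range := by
      refine hrng K L p hp hcl σ hσ (b c'.out ^ p) _ ?_ (pow_ne_zero _ (hb _)) ?_ ?_
      · exact (nP p σ).ker.pow_mem c'.out.2 _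
      · have e1 : ((b c'.out ^ p : 𝓞 L) : L) = (b c'.out : L) ^ p := by
          push_cast
          rfl
        rw [e1, map_pow, hyb]
        push_cast
        ring
      · apply hdvd
        intro i
        rw [← Ideal.span_singleton_pow, mult_pow (hR.max i) (hspan _)]
        exact dvd_mul_right _ _
    have h4 : ((c'.out : PU p L))⁻¹ * (c.out : PU p L) ∈ (dP p σ).range := by
      have h5 := (dP p σ).range.mul_mem ((dP p σ).range.inv_mem h3) h2
      have h6 : ((c'.out : PU p L) ^ p)⁻¹ * ((c.out : PU p L) * (c'.out : PU p L) ^ (p - 1)) =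
          ((c'.out : PU p L))⁻¹ * (c.out : PU p L) := by
        have h7 : (c'.out : PU p L) ^ p = (c'.out : PU p L) ^ (p - 1) * (c'.out : PU p L) := by
          rw [← pow_succ, Nat.sub_add_cancel hp.pos]
        rw [h7]
        generalize (c'.out : PU p L) ^ (p - 1) = z
        generalize (c'.out : PU p L) = z'
        generalize (c.out : PU p L) = z''
        rw [mul_inv, mul_comm z⁻¹, mul_assoc, mul_comm z'' z, inv_mul_cancel_left]
      rwa [h6] at h5
    have h8 : (QuotientGroup.mk c'.out : (nP p σ).ker ⧸ ((dP p σ).range.subgroupOf (nP p σ).ker)) = QuotientGroup.mk c.out :=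
      QuotientGroup.eq.2 ((Subgroup.mem_subgroupOf).2 h4)
    have h9 : ∀ q : (nP p σ).ker ⧸ ((dP p σ).range.subgroupOf (nP p σ).ker), QuotientGroup.mk q.out = q :=
      fun q => Quotient.out_eq q
    rw [h9, h9] at h8
    exact h8.symm
  calc Nat.card ((nP p σ).ker ⧸ ((dP p σ).range.subgroupOf (nP p σ).ker)) ≤ Nat.card (ι → ZMod p) :=
        Nat.card_le_card_of_injective _ hinj
    _ = p ^ Fintype.card ι := by simp

end Pool.Agent.V5helper4.DU
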